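import Mathlib

namespace Pool.Agent.Q192.HY

open scoped Manifold Topology
open Filter Set

/-- descent of a holomorphic function through a non-constant holomorphic map -/
theorem descent {f g D : ℂ → ℂ} {z₀ : ℂ} (hf : AnalyticAt ℂ f z₀) (hg : AnalyticAt ℂ g z₀)
    (hnc : ¬ ∀ᶠ z in 𝓝 z₀, f z = f z₀) (hD : ∀ᶠ z in 𝓝 z₀, D (f z) = g z) :
    AnalyticAt ℂ D (f z₀) := by
  have hopen : 𝓝 (f z₀) ≤ Filter.map f (𝓝 z₀) :=
    (hf.eventually_constant_or_nhds_le_map_nhds).resolve_left hnc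
  apply Complex.analyticAt_of_differentiable_on_punctured_nhds_of_continuousAt
  · have hd : ∀ᶠ z in 𝓝[≠] z₀, deriv f z ≠ 0 := by
      rcases hf.deriv.eventually_eq_zero_or_eventually_ne_zero with h | h
      · exfalso; apply hnc
        have e1 : ∀ᶠ z in 𝓝 z₀, AnalyticAt ℂ f z := hf.eventually_analyticAt
        obtain ⟨r, hr, hball⟩ := Metric.eventually_nhds_iff_ball.1 (h.and e1)
        have hder : ∀ z ∈ Metric.ball z₀ r, DifferentiableAt ℂ f z := fun z hz =>
          (hball z hz).2.differentiableAt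
        filter_upwards [Metric.ball_mem_nhds z₀ hr] with z hz
        exact (convex_ball z₀ r).is_const_of_fderivWithin_eq_zero (𝕜 := ℂ)
          (fun x hx => (hder x hx).differentiableWithinAt)
          (fun x hx => by
            rw [fderivWithin_of_isOpen Metric.isOpen_ball hx]
            ext
            simpa using (hball x hx).1) hz (Metric.mem_ball_self hr)
      · exact h
    have h1 : ∀ᶠ z in 𝓝[≠] z₀, DifferentiableAt ℂ D (f z) := by
      have e1 : ∀ᶠ z in 𝓝 z₀, AnalyticAt ℂ f z := hf.eventually_analyticAt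
      have e2 : ∀ᶠ z in 𝓝 z₀, AnalyticAt ℂ g z := hg.eventually_analyticAt
      have e3 : ∀ᶠ z in 𝓝 z₀, ∀ᶠ z' in 𝓝 z, D (f z') = g z' := hD.eventually_nhds
      filter_upwards [hd, e1.filter_mono nhdsWithin_le_nhds, e2.filter_mono nhdsWithin_le_nhds,
        e3.filter_mono nhdsWithin_le_nhds] with z hz a1 a2 a3
      have hs : HasStrictDerivAt f (deriv f z) z := a1.hasStrictDerivAt
      have hsi := hs.to_localInverse hz
      have hri := hs.eventually_right_inverse hz
      have hval : HasStrictDerivAt.localInverse f (deriv f z) z hs hz (f z) = z :=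
        HasStrictFDerivAt.localInverse_apply_image
          (f' := ContinuousLinearEquiv.unitsEquivAut ℂ (Units.mk0 (deriv f z) hz)) hs
      set s := HasStrictDerivAt.localInverse f (deriv f z) z hs hz with hsdef
      have hsc : Tendsto s (𝓝 (f z)) (𝓝 z) := by
        have := hsi.hasDerivAt.continuousAt
        unfold ContinuousAt at this
        rwa [hval] at this
      have heq : D =ᶠ[𝓝 (f z)] g ∘ s := by
        filter_upwards [hri, hsc.eventually a3] with u hu1 hu2
        simp only [Function.comp]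
        rw [← hu2, hu1]
      have hgs : DifferentiableAt ℂ (g ∘ s) (f z) := by
        apply DifferentiableAt.comp
        · rw [hval]; exact a2.differentiableAt
        · exact hsi.hasDerivAt.differentiableAt
      exact (heq.differentiableAt_iff).2 hgs
    rw [eventually_nhdsWithin_iff] at h1 ⊢
    apply hopen
    rw [Filter.mem_map]
    filter_upwards [h1] with z hz hz'
    apply hz
    intro h
    apply hz'
    rw [Set.mem_singleton_iff] at h ⊢
    rw [h]
  · unfold ContinuousAt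
    have h2 : Tendsto (fun z => D (f z)) (𝓝 z₀) (𝓝 (D (f z₀))) := by
      have h3 : (fun z => D (f z)) =ᶠ[𝓝 z₀] g := hD
      have h4 : D (f z₀) = g z₀ := hD.self_of_nhds
      rw [h4]
      exact (hg.continuousAt.tendsto).congr' h3.symm
    calc Filter.map D (𝓝 (f z₀)) ≤ Filter.map D (Filter.map f (𝓝 z₀)) := Filter.map_mono hopen
      _ = Filter.map (fun z => D (f z)) (𝓝 z₀) := by rw [Filter.map_map]; rfl
      _ ≤ _ := h2

variable {R : Type*} [TopologicalSpace R] [ChartedSpace ℂ R]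

theorem neBot_punctured (p : R) : (𝓝[≠] p).NeBot := by
  set φ := chartAt ℂ p
  have h1 : Tendsto φ.symm (𝓝[≠] (φ p)) (𝓝[≠] p) := by
    apply tendsto_nhdsWithin_of_tendsto_nhds_of_eventually_within
    · have := φ.continuousAt_symm (φ.map_source (mem_chart_source ℂ p))
      unfold ContinuousAt at this
      rw [φ.left_inv (mem_chart_source ℂ p)] at this
      exact this.mono_left nhdsWithin_le_nhds
    · have h2 : ∀ᶠ z in 𝓝 (φ p), z ∈ φ.target :=
        φ.open_target.mem_nhds (φ.map_source (mem_chart_source ℂ p))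
      filter_upwards [self_mem_nhdsWithin, h2.filter_mono nhdsWithin_le_nhds] with z hz hz2 h3
      apply hz
      rw [Set.mem_singleton_iff] at h3 ⊢
      rw [← h3, φ.right_inv hz2]
  exact h1.neBot

variable [IsManifold 𝓘(ℂ) 1 R]

theorem analyticAt_chart {F : R → ℂ} {p : R}
    (hF : ∀ᶠ x in 𝓝 p, MDifferentiableAt 𝓘(ℂ) 𝓘(ℂ) F x) :
    AnalyticAt ℂ (fun z => F ((chartAt ℂ p).symm z)) (chartAt ℂ p p) := by
  set φ := chartAt ℂ p
  rw [Complex.analyticAt_iff_eventually_differentiableAt]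
  have h2 : ∀ᶠ z in 𝓝 (φ p), z ∈ φ.target :=
    φ.open_target.mem_nhds (φ.map_source (mem_chart_source ℂ p))
  have h3 : Tendsto φ.symm (𝓝 (φ p)) (𝓝 p) := by
    have := φ.continuousAt_symm (φ.map_source (mem_chart_source ℂ p))
    unfold ContinuousAt at this
    rwa [φ.left_inv (mem_chart_source ℂ p)] at this
  filter_upwards [h2, h3.eventually hF] with z hz1 hz2
  have h4 : MDifferentiableAt 𝓘(ℂ) 𝓘(ℂ) φ.symm z :=
    mdifferentiableAt_atlas_symm (chart_mem_atlas ℂ p) hz1
  exact mdifferentiableAt_iff_differentiableAt.1 (hz2.comp z h4)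

omit [IsManifold 𝓘(ℂ) 1 R] in
theorem tendsto_chart_punctured (p : R) :
    Tendsto (chartAt ℂ p) (𝓝[≠] p) (𝓝[≠] (chartAt ℂ p p)) := by
  set φ := chartAt ℂ p
  apply tendsto_nhdsWithin_of_tendsto_nhds_of_eventually_within
  · exact (φ.continuousAt (mem_chart_source ℂ p)).tendsto.mono_left nhdsWithin_le_nhds
  · have h2 : ∀ᶠ z in 𝓝 p, z ∈ φ.source := φ.open_source.mem_nhds (mem_chart_source ℂ p)
    filter_upwards [self_mem_nhdsWithin, h2.filter_mono nhdsWithin_le_nhds] with z hz hz2 h3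
    apply hz
    rw [Set.mem_singleton_iff] at h3 ⊢
    exact φ.injOn hz2 (mem_chart_source ℂ p) h3

theorem eq_nhds {F G : R → ℂ} {p : R}
    (hF : ∀ᶠ x in 𝓝 p, MDifferentiableAt 𝓘(ℂ) 𝓘(ℂ) F x)
    (hG : ∀ᶠ x in 𝓝 p, MDifferentiableAt 𝓘(ℂ) 𝓘(ℂ) G x)
    (h : ∃ᶠ x in 𝓝[≠] p, F x = G x) : ∀ᶠ x in 𝓝 p, F x = G x := by
  set φ := chartAt ℂ p with hφ
  have h2 : ∀ᶠ z in 𝓝 p, z ∈ φ.source := φ.open_source.mem_nhds (mem_chart_source ℂ p)
  have key := (AnalyticAt.frequently_eq_iff_eventually_eq (analyticAt_chart hF)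
    (analyticAt_chart hG)).1 (by
      apply (tendsto_chart_punctured p).frequently
      refine (h.and_eventually (h2.filter_mono nhdsWithin_le_nhds)).mono ?_
      rintro x ⟨hx, hx2⟩
      rw [(chartAt ℂ p).left_inv hx2]
      exact hx)
  have h4 := (φ.continuousAt (mem_chart_source ℂ p)).tendsto.eventually key
  filter_upwards [h4, h2] with x hx hx2
  rwa [(chartAt ℂ p).left_inv hx2] at hx

omit [IsManifold 𝓘(ℂ) 1 R] in
theorem not_const_chart {F : R → ℂ} {p : R} (hnc : ¬ ∀ᶠ x in 𝓝 p, F x = F p) :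
    ¬ ∀ᶠ z in 𝓝 (chartAt ℂ p p), F ((chartAt ℂ p).symm z) =
      F ((chartAt ℂ p).symm (chartAt ℂ p p)) := by
  intro h
  apply hnc
  set φ := chartAt ℂ p with hφ
  have h2 : ∀ᶠ z in 𝓝 p, z ∈ φ.source := φ.open_source.mem_nhds (mem_chart_source ℂ p)
  have h4 := (φ.continuousAt (mem_chart_source ℂ p)).tendsto.eventually h
  filter_upwards [h4, h2] with x hx hx2
  rwa [φ.left_inv hx2, φ.left_inv (mem_chart_source ℂ p)] at hx

theorem nhds_le_map {F : R → ℂ} {p : R}
    (hF : ∀ᶠ x in 𝓝 p, MDifferentiableAt 𝓘(ℂ) 𝓘(ℂ) F x)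
    (hnc : ¬ ∀ᶠ x in 𝓝 p, F x = F p) : 𝓝 (F p) ≤ Filter.map F (𝓝 p) := by
  have h1 := ((analyticAt_chart hF).eventually_constant_or_nhds_le_map_nhds).resolve_left
    (not_const_chart hnc)
  set φ := chartAt ℂ p with hφ
  rw [φ.left_inv (mem_chart_source ℂ p)] at h1
  refine h1.trans ?_
  have : Filter.map (fun z => F (φ.symm z)) (𝓝 (φ p)) = Filter.map F (Filter.map φ.symm (𝓝 (φ p))) := by
    rw [Filter.map_map]; rfl
  rw [this, φ.symm_map_nhds_eq (mem_chart_source ℂ p)]

theorem descent' {F G : R → ℂ} {D : ℂ → ℂ} {p : R}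
    (hF : ∀ᶠ x in 𝓝 p, MDifferentiableAt 𝓘(ℂ) 𝓘(ℂ) F x)
    (hG : ∀ᶠ x in 𝓝 p, MDifferentiableAt 𝓘(ℂ) 𝓘(ℂ) G x)
    (hnc : ¬ ∀ᶠ x in 𝓝 p, F x = F p) (hD : ∀ᶠ x in 𝓝 p, D (F x) = G x) :
    AnalyticAt ℂ D (F p) := by
  have h1 := descent (D := D) (analyticAt_chart hF) (analyticAt_chart hG) (not_const_chart hnc) (by
    set φ := chartAt ℂ p with hφ
    have h3 : Tendsto φ.symm (𝓝 (φ p)) (𝓝 p) := by
      have := φ.continuousAt_symm (φ.map_source (mem_chart_source ℂ p))
      unfold ContinuousAt at this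
      rwa [φ.left_inv (mem_chart_source ℂ p)] at this
    exact h3.eventually hD)
  rwa [(chartAt ℂ p).left_inv (mem_chart_source ℂ p)] at h1

omit [IsManifold 𝓘(ℂ) 1 R] in
/-- an open and relatively closed (in the weak sense below) nonempty set is everything -/
theorem clopen_identity [PreconnectedSpace R] {E : Set R} (hopen : IsOpen E) (hne : E.Nonempty)
    (h : ∀ p ∈ closure E, (∃ᶠ x in 𝓝[≠] p, x ∈ E) → p ∈ E) : E = univ := by
  have hcl : IsClosed E := by
    rw [← closure_eq_iff_isClosed]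
    apply Subset.antisymm _ subset_closure
    intro p hp
    apply h p hp
    rw [frequently_nhdsWithin_iff, frequently_nhds_iff]
    intro U hU hUo
    obtain ⟨x, hxU, hxE⟩ := mem_closure_iff.1 hp U hUo hU
    have := neBot_punctured x
    have h1 : ∀ᶠ y in 𝓝 x, y ∈ U ∩ E := (hUo.inter hopen).mem_nhds ⟨hxU, hxE⟩
    by_cases hx : x = p
    · obtain ⟨y, hy1, hy2⟩ := ((h1.filter_mono nhdsWithin_le_nhds : ∀ᶠ y in 𝓝[≠] x, y ∈ U ∩ E).and
        self_mem_nhdsWithin).exists
      exact ⟨y, hy1.1, hy1.2, by rw [← hx]; exact hy2⟩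
    · exact ⟨x, hxU, hxE, hx⟩
  exact IsClopen.eq_univ ⟨hcl, hopen⟩ hne

theorem self_map_identity [PreconnectedSpace R] [T2Space R] {f g : R → R}
    (hf : MDifferentiable 𝓘(ℂ) 𝓘(ℂ) f) (hg : MDifferentiable 𝓘(ℂ) 𝓘(ℂ) g)
    {p₀ : R} (h0 : ∀ᶠ x in 𝓝 p₀, f x = g x) : f = g := by
  have hE : {p | ∀ᶠ x in 𝓝 p, f x = g x} = univ := by
    apply clopen_identity
    · exact isOpen_setOfPred_eventually_nhds
    · exact ⟨p₀, h0⟩
    · intro p hp hfr
      have hcl : IsClosed {x | f x = g x} := isClosed_eq hf.continuous hg.continuous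
      have hpe : f p = g p := by
        have : closure {p | ∀ᶠ x in 𝓝 p, f x = g x} ⊆ {x | f x = g x} :=
          closure_minimal (fun x hx => hx.self_of_nhds) hcl
        exact this hp
      set φ := chartAt ℂ (f p) with hφ
      have hs1 : ∀ᶠ x in 𝓝 p, f x ∈ φ.source := by
        apply hf.continuous.continuousAt.eventually
        exact φ.open_source.mem_nhds (mem_chart_source ℂ (f p))
      have hs2 : ∀ᶠ x in 𝓝 p, g x ∈ φ.source := by
        apply hg.continuous.continuousAt.eventually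
        rw [← hpe]
        exact φ.open_source.mem_nhds (mem_chart_source ℂ (f p))
      have h1 : ∀ᶠ x in 𝓝 p, MDifferentiableAt 𝓘(ℂ) 𝓘(ℂ) (fun x => φ (f x)) x := by
        filter_upwards [hs1] with x hx
        exact (mdifferentiableAt_atlas (chart_mem_atlas ℂ (f p)) hx).comp x (hf x)
      have h2 : ∀ᶠ x in 𝓝 p, MDifferentiableAt 𝓘(ℂ) 𝓘(ℂ) (fun x => φ (g x)) x := by
        filter_upwards [hs2] with x hx
        exact (mdifferentiableAt_atlas (chart_mem_atlas ℂ (f p)) hx).comp x (hg x)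
      have h3 := eq_nhds h1 h2 (hfr.mono (fun x hx => by
        have : f x = g x := hx.self_of_nhds
        simp only [this]))
      show ∀ᶠ x in 𝓝 p, f x = g x
      filter_upwards [h3, hs1, hs2] with x hx1 hx2 hx3
      exact φ.injOn hx2 hx3 hx1
  funext x
  have : x ∈ {p | ∀ᶠ x in 𝓝 p, f x = g x} := by rw [hE]; trivial
  exact this.self_of_nhds

end Pool.Agent.Q192.HY
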