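import Mathlib

namespace Pool.Agent.Q192.HY

open scoped Manifold Topology
open Filter Set

/-- The affine coordinate `z` of the Riemann sphere `ℂ ∪ {∞}`, with value `0` at `∞`. It is a
holomorphic chart of the sphere minus `∞`. -/
noncomputable def coord (ζ : OnePoint ℂ) : ℂ := ζ.elim 0 (fun z => z)

/-- The coordinate `1/z` of the Riemann sphere `ℂ ∪ {∞}` (value `0` at `∞`). It is a holomorphic
chart of the sphere minus `0`. -/
noncomputable def coordInv (ζ : OnePoint ℂ) : ℂ := ζ.elim 0 (fun z => z⁻¹)

section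
variable {R : Type*} [TopologicalSpace R] [ChartedSpace ℂ R]

/-- `f : R → ℂ ∪ {∞}` is a holomorphic map into the Riemann sphere: it is continuous, it is
complex differentiable in the coordinate `z` wherever its value is not `∞`, and in the coordinate
`1/z` wherever its value is not `0`. -/
def HolToSphere (f : R → OnePoint ℂ) : Prop :=
  Continuous f ∧ ∀ p : R,
    (f p ≠ OnePoint.infty → MDifferentiableAt 𝓘(ℂ) 𝓘(ℂ) (fun x => coord (f x)) p) ∧
    (f p ≠ ((0 : ℂ) : OnePoint ℂ) → MDifferentiableAt 𝓘(ℂ) 𝓘(ℂ) (fun x => coordInv (f x)) p)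

/-- `π` is a holomorphic degree two branched covering of the Riemann surface `R` onto
`Ĉ ∖ B'`, whose set of branch values is exactly `B`, where `B` is an infinite discrete subset of
the sphere with connected complement of its limit set `B'` (`= derivedSet B`): `π` is holomorphic,
has image in `Ĉ ∖ B'`, is proper as a map to `Ĉ ∖ B'`, and its fibres are single points over `B`
and pairs of distinct points over `Ĉ ∖ (B' ∪ B)`. -/
structure IsDoubleCover (π : R → OnePoint ℂ) (B : Set (OnePoint ℂ)) : Prop where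
  infinite : B.Infinite
  discrete : ∀ ζ ∈ B, ζ ∉ derivedSet B
  connected : IsConnected (derivedSet B)ᶜ
  hol : HolToSphere π
  avoids : ∀ p, π p ∉ derivedSet B
  proper : ∀ K : Set (OnePoint ℂ), IsCompact K → K ⊆ (derivedSet B)ᶜ → IsCompact (π ⁻¹' K)
  branched : ∀ ζ ∈ B, ∃ p, π ⁻¹' {ζ} = {p}
  unbranched : ∀ ζ ∉ B, ζ ∉ derivedSet B → ∃ p q, p ≠ q ∧ π ⁻¹' {ζ} = {p, q}

/-- `τ` is a conformal automorphism of order two of `R` which generates the deck group of a
holomorphic degree two branched covering `π : R → Ĉ ∖ B'` with set of branch values `B`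
(the deck group of such a `π` has order two, so it is generated by any conformal `τ ≠ id` with
`π ∘ τ = π`). -/
def IsHyperellipticInvolution (τ : R → R) (B : Set (OnePoint ℂ)) : Prop :=
  MDifferentiable 𝓘(ℂ) 𝓘(ℂ) τ ∧ τ ≠ id ∧ (∀ p, τ (τ p) = p) ∧
    ∃ π : R → OnePoint ℂ, IsDoubleCover π B ∧ ∀ p, π (τ p) = π p

end

end Pool.Agent.Q192.HY
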