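import Mathlib
import Pool.Agent.Q192.HY.Basic
import Pool.Agent.Q192.HY.Defs

namespace Pool.Agent.Q192.HY

open scoped Manifold Topology
open Filter Set

@[simp] theorem coord_coe (z : ℂ) : coord (z : OnePoint ℂ) = z := rfl
@[simp] theorem coord_infty : coord OnePoint.infty = 0 := rfl
@[simp] theorem coordInv_coe (z : ℂ) : coordInv (z : OnePoint ℂ) = z⁻¹ := rfl
@[simp] theorem coordInv_infty : coordInv OnePoint.infty = 0 := rfl

/-- inverse of `coordInv` -/
noncomputable def lamInv (z : ℂ) : OnePoint ℂ := if z = 0 then OnePoint.infty else ((z⁻¹ : ℂ) : OnePoint ℂ)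

/-- the two standard coordinates -/
def Crd (κ : OnePoint ℂ → ℂ) (lam : ℂ → OnePoint ℂ) (U : Set (OnePoint ℂ)) : Prop :=
  (κ = coord ∧ lam = OnePoint.some ∧ U = {OnePoint.infty}ᶜ) ∨
  (κ = coordInv ∧ lam = lamInv ∧ U = {((0 : ℂ) : OnePoint ℂ)}ᶜ)

theorem exists_crd (ζ : OnePoint ℂ) : ∃ κ lam U, Crd κ lam U ∧ ζ ∈ U := by
  by_cases h : ζ = OnePoint.infty
  · refine ⟨_, _, _, Or.inr ⟨rfl, rfl, rfl⟩, ?_⟩
    rw [h]
    simp
  · exact ⟨_, _, _, Or.inl ⟨rfl, rfl, rfl⟩, h⟩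

theorem tendsto_inv_infty :
    Tendsto (fun z : ℂ => ((z⁻¹ : ℂ) : OnePoint ℂ)) (𝓝[≠] 0) (𝓝[≠] OnePoint.infty) := by
  rw [OnePoint.nhdsNE_infty_eq]
  have h1 : Tendsto (fun z : ℂ => z⁻¹) (𝓝[≠] 0) (coclosedCompact ℂ) := by
    rw [coclosedCompact_eq_cocompact, ← Metric.cobounded_eq_cocompact]
    exact Filter.tendsto_inv₀_nhdsNE_zero
  exact (Filter.tendsto_map (f := OnePoint.some)).comp h1

theorem continuous_lamInv : Continuous lamInv := by
  rw [continuous_iff_continuousAt]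
  intro z
  by_cases hz : z = 0
  · subst hz
    rw [continuousAt_iff_punctured_nhds]
    have : lamInv 0 = OnePoint.infty := by simp [lamInv]
    rw [this]
    refine (tendsto_inv_infty.mono_right nhdsWithin_le_nhds).congr' ?_
    filter_upwards [self_mem_nhdsWithin] with z hz
    have hz' : z ≠ 0 := hz
    simp [lamInv, hz']
  · have h1 : ContinuousAt (fun z : ℂ => ((z⁻¹ : ℂ) : OnePoint ℂ)) z :=
      (OnePoint.continuous_coe.continuousAt).comp (continuousAt_inv₀ hz)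
    refine h1.congr ?_
    filter_upwards [isOpen_ne.mem_nhds hz] with w hw
    simp [lamInv, hw]

theorem continuousAt_coordInv_infty : ContinuousAt coordInv OnePoint.infty := by
  rw [OnePoint.continuousAt_infty']
  rw [coclosedCompact_eq_cocompact, ← Metric.cobounded_eq_cocompact]
  exact Filter.tendsto_inv₀_cobounded

namespace Crd

variable {κ : OnePoint ℂ → ℂ} {lam : ℂ → OnePoint ℂ} {U : Set (OnePoint ℂ)}

theorem isOpen (h : Crd κ lam U) : IsOpen U := by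
  rcases h with ⟨-, -, rfl⟩ | ⟨-, -, rfl⟩
  · exact isOpen_compl_singleton
  · exact isOpen_compl_singleton

theorem lam_mem (h : Crd κ lam U) (z : ℂ) : lam z ∈ U := by
  rcases h with ⟨-, rfl, rfl⟩ | ⟨-, rfl, rfl⟩
  · simp
  · unfold lamInv
    split_ifs with hz
    · simp
    · simp only [mem_compl_iff, mem_singleton_iff, OnePoint.coe_eq_coe]
      exact inv_ne_zero hz

theorem right_inv (h : Crd κ lam U) (z : ℂ) : κ (lam z) = z := by
  rcases h with ⟨rfl, rfl, rfl⟩ | ⟨rfl, rfl, rfl⟩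
  · simp
  · unfold lamInv
    split_ifs with hz
    · simp [hz]
    · simp

theorem left_inv (h : Crd κ lam U) {ζ : OnePoint ℂ} (hζ : ζ ∈ U) : lam (κ ζ) = ζ := by
  rcases h with ⟨rfl, rfl, rfl⟩ | ⟨rfl, rfl, rfl⟩
  · induction ζ using OnePoint.rec with
    | infty => exact absurd rfl hζ
    | coe z => rfl
  · induction ζ using OnePoint.rec with
    | infty => simp [lamInv]
    | coe z =>
      have : z ≠ 0 := by
        intro h; apply hζ; simp [h]
      simp [lamInv, this]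

theorem injOn (h : Crd κ lam U) {ζ ξ : OnePoint ℂ} (hζ : ζ ∈ U) (hξ : ξ ∈ U) (e : κ ζ = κ ξ) :
    ζ = ξ := by
  rw [← h.left_inv hζ, ← h.left_inv hξ, e]

theorem continuous_lam (h : Crd κ lam U) : Continuous lam := by
  rcases h with ⟨rfl, rfl, rfl⟩ | ⟨rfl, rfl, rfl⟩
  · exact OnePoint.continuous_coe
  · exact continuous_lamInv

theorem continuousAt (h : Crd κ lam U) {ζ : OnePoint ℂ} (hζ : ζ ∈ U) : ContinuousAt κ ζ := by
  rcases h with ⟨rfl, rfl, rfl⟩ | ⟨rfl, rfl, rfl⟩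
  · induction ζ using OnePoint.rec with
    | infty => exact absurd rfl hζ
    | coe z =>
      rw [OnePoint.continuousAt_coe]
      exact continuousAt_id
  · induction ζ using OnePoint.rec with
    | infty => exact continuousAt_coordInv_infty
    | coe z =>
      rw [OnePoint.continuousAt_coe]
      have : z ≠ 0 := by
        intro h; apply hζ; simp [h]
      exact continuousAt_inv₀ this

variable {R : Type*} [TopologicalSpace R] [ChartedSpace ℂ R]

theorem mdiff (h : Crd κ lam U) {f : R → OnePoint ℂ} (hf : HolToSphere f) {p : R}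
    (hp : f p ∈ U) : MDifferentiableAt 𝓘(ℂ) 𝓘(ℂ) (fun x => κ (f x)) p := by
  rcases h with ⟨rfl, rfl, rfl⟩ | ⟨rfl, rfl, rfl⟩
  · exact (hf.2 p).1 hp
  · exact (hf.2 p).2 hp

theorem mdiff_nhds (h : Crd κ lam U) {f : R → OnePoint ℂ} (hf : HolToSphere f) {p : R}
    (hp : f p ∈ U) : ∀ᶠ x in 𝓝 p, MDifferentiableAt 𝓘(ℂ) 𝓘(ℂ) (fun x => κ (f x)) x := by
  filter_upwards [hf.1.continuousAt.eventually (h.isOpen.mem_nhds hp)] with x hx
  exact h.mdiff hf hx

end Crd

variable {R : Type*} [TopologicalSpace R] [ChartedSpace ℂ R] [IsManifold 𝓘(ℂ) 1 R]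

/-- identity theorem for holomorphic maps to the sphere -/
theorem sphere_identity [PreconnectedSpace R] {f g : R → OnePoint ℂ}
    (hf : HolToSphere f) (hg : HolToSphere g)
    {p₀ : R} (h0 : ∀ᶠ x in 𝓝 p₀, f x = g x) : f = g := by
  have hE : {p | ∀ᶠ x in 𝓝 p, f x = g x} = univ := by
    apply clopen_identity
    · exact isOpen_setOfPred_eventually_nhds
    · exact ⟨p₀, h0⟩
    · intro p hp hfr
      have hcl : IsClosed {x | f x = g x} := isClosed_eq hf.1 hg.1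
      have hpe : f p = g p := by
        have : closure {p | ∀ᶠ x in 𝓝 p, f x = g x} ⊆ {x | f x = g x} :=
          closure_minimal (fun x hx => hx.self_of_nhds) hcl
        exact this hp
      obtain ⟨κ, lam, U, hκ, hU⟩ := exists_crd (f p)
      have hs1 : ∀ᶠ x in 𝓝 p, f x ∈ U := hf.1.continuousAt.eventually (hκ.isOpen.mem_nhds hU)
      have hU2 : g p ∈ U := by rw [← hpe]; exact hU
      have hs2 : ∀ᶠ x in 𝓝 p, g x ∈ U := hg.1.continuousAt.eventually (hκ.isOpen.mem_nhds hU2)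
      have h3 := eq_nhds (hκ.mdiff_nhds hf hU) (hκ.mdiff_nhds hg hU2) (hfr.mono (fun x hx => by
        have : f x = g x := hx.self_of_nhds
        simp only [this]))
      show ∀ᶠ x in 𝓝 p, f x = g x
      filter_upwards [h3, hs1, hs2] with x hx1 hx2 hx3
      exact hκ.injOn hx2 hx3 hx1
  funext x
  have : x ∈ {p | ∀ᶠ x in 𝓝 p, f x = g x} := by rw [hE]; trivial
  exact this.self_of_nhds

namespace IsDoubleCover

variable {π : R → OnePoint ℂ} {B : Set (OnePoint ℂ)}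

omit [IsManifold 𝓘(ℂ) 1 R] in
theorem finite_fibre (h : IsDoubleCover π B) (p : R) : (π ⁻¹' {π p}).Finite := by
  by_cases hB : π p ∈ B
  · obtain ⟨a, ha⟩ := h.branched _ hB
    rw [ha]; exact finite_singleton a
  · obtain ⟨a, b, -, hab⟩ := h.unbranched _ hB (h.avoids p)
    rw [hab]; exact toFinite _

omit [IsManifold 𝓘(ℂ) 1 R] in
theorem surj (h : IsDoubleCover π B) {ζ : OnePoint ℂ} (hζ : ζ ∉ derivedSet B) : ∃ p, π p = ζ := by
  by_cases hB : ζ ∈ B
  · obtain ⟨a, ha⟩ := h.branched _ hB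
    refine ⟨a, ?_⟩
    have : a ∈ π ⁻¹' {ζ} := by rw [ha]; rfl
    exact this
  · obtain ⟨a, b, -, hab⟩ := h.unbranched _ hB hζ
    refine ⟨a, ?_⟩
    have : a ∈ π ⁻¹' {ζ} := by rw [hab]; simp
    exact this

omit [IsManifold 𝓘(ℂ) 1 R] in
theorem fibre_le_two (h : IsDoubleCover π B) {p p' x : R} (e : π p = π p') (hne : p ≠ p')
    (hx : π x = π p) : x = p ∨ x = p' := by
  by_cases hB : π p ∈ B
  · obtain ⟨a, ha⟩ := h.branched _ hB
    have h1 : p ∈ π ⁻¹' {π p} := rfl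
    have h2 : p' ∈ π ⁻¹' {π p} := e.symm
    rw [ha] at h1 h2
    exact absurd (h1.trans h2.symm) hne
  · obtain ⟨a, b, -, hab⟩ := h.unbranched _ hB (h.avoids p)
    have h1 : p ∈ π ⁻¹' {π p} := rfl
    have h2 : p' ∈ π ⁻¹' {π p} := e.symm
    have h3 : x ∈ π ⁻¹' {π p} := hx
    rw [hab] at h1 h2 h3
    simp only [mem_insert_iff, mem_singleton_iff] at h1 h2 h3
    grind

omit [IsManifold 𝓘(ℂ) 1 R] in
theorem not_const [T1Space R] (h : IsDoubleCover π B) {κ : OnePoint ℂ → ℂ} {lam : ℂ → OnePoint ℂ}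
    {U : Set (OnePoint ℂ)} (hκ : Crd κ lam U) {p : R} (hp : π p ∈ U) :
    ¬ ∀ᶠ x in 𝓝 p, κ (π x) = κ (π p) := by
  intro hc
  have h1 : ∀ᶠ x in 𝓝 p, x ∈ π ⁻¹' {π p} := by
    filter_upwards [hc, h.hol.1.continuousAt.eventually (hκ.isOpen.mem_nhds hp)] with x hx1 hx2
    exact hκ.injOn hx2 hp hx1
  have h2 : ((π ⁻¹' {π p}) \ {p}).Finite := (h.finite_fibre p).subset sdiff_subset
  have h3 : ∀ᶠ x in 𝓝 p, x ∉ (π ⁻¹' {π p}) \ {p} :=
    h2.isClosed.isOpen_compl.mem_nhds (by simp)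
  have := neBot_punctured p
  obtain ⟨x, ⟨hx1, hx2⟩, hx3⟩ := (((h1.and h3).filter_mono nhdsWithin_le_nhds :
    ∀ᶠ x in 𝓝[≠] p, x ∈ π ⁻¹' {π p} ∧ x ∉ (π ⁻¹' {π p}) \ {p}).and self_mem_nhdsWithin).exists
  exact hx2 ⟨hx1, hx3⟩

theorem swap [PreconnectedSpace R] [T2Space R] (h : IsDoubleCover π B) {τ : R → R}
    (hτ : MDifferentiable 𝓘(ℂ) 𝓘(ℂ) τ) (hτ1 : τ ≠ id) (hττ : ∀ p, τ (τ p) = p)
    (hπ : ∀ p, π (τ p) = π p) {p p' : R} (e : π p = π p') (hne : p ≠ p') : τ p = p' := by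
  by_contra hcon
  have h1 : τ p = p := (h.fibre_le_two e hne (hπ p)).resolve_right hcon
  have h2 : τ p' = p' := by
    rcases h.fibre_le_two e hne ((hπ p').trans e.symm) with h2 | h2
    · exfalso
      apply hcon
      rw [← h2, hττ]
    · exact h2
  -- τ is the identity near `p`
  obtain ⟨κ, lam, U, hκ, hU⟩ := exists_crd (π p)
  have hU' : π p' ∈ U := by rw [← e]; exact hU
  obtain ⟨O, O', hO, hO', hpO, hpO', hd⟩ := t2_separation hne
  have hopen := nhds_le_map (hκ.mdiff_nhds h.hol hU') (h.not_const hκ hU')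
  have h3 : (fun x => κ (π x)) '' (O' ∩ π ⁻¹' U) ∈ 𝓝 (κ (π p')) := by
    apply hopen
    rw [Filter.mem_map]
    filter_upwards [(hO'.inter (hκ.isOpen.preimage h.hol.1)).mem_nhds ⟨hpO', hU'⟩] with x hx
    exact ⟨x, hx, rfl⟩
  have h4 : ∀ᶠ x in 𝓝 p, κ (π x) ∈ (fun x => κ (π x)) '' (O' ∩ π ⁻¹' U) := by
    have hc : ContinuousAt (fun x => κ (π x)) p := (hκ.mdiff h.hol hU).continuousAt
    rw [← e] at h3
    exact hc.eventually h3
  have h5 : ∀ᶠ x in 𝓝 p, τ x = x := by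
    have h6 : ∀ᶠ x in 𝓝 p, τ x ∈ O := hτ.continuous.continuousAt.eventually
      (by rw [h1]; exact hO.mem_nhds hpO)
    filter_upwards [h4, h6, hO.mem_nhds hpO,
      h.hol.1.continuousAt.eventually (hκ.isOpen.mem_nhds hU)] with x hx1 hx2 hx3 hx4
    obtain ⟨y, ⟨hy1, hy2⟩, hy3⟩ := hx1
    have hπe : π x = π y := (hκ.injOn hy2 hx4 hy3).symm
    have hxy : x ≠ y := fun hh => (Set.disjoint_left.1 hd hx3) (hh ▸ hy1)
    rcases h.fibre_le_two hπe hxy (hπ x) with h7 | h7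
    · exact h7
    · exfalso
      exact (Set.disjoint_left.1 hd hx2) (h7 ▸ hy1)
  exact hτ1 (self_map_identity hτ mdifferentiable_id h5)

end IsDoubleCover

end Pool.Agent.Q192.HY
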