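import Mathlib
import Pool.Agent.Q192.HY.Main

namespace Pool.Agent.Q192.HY

open scoped Manifold Topology
open Filter Set

/-- the function `1/(ζ - b)` on the sphere, with values in `ℂ` -/
noncomputable def gb (b : ℂ) (ζ : OnePoint ℂ) : ℂ := ζ.elim 0 (fun z => (z - b)⁻¹)

@[simp] theorem gb_coe (b z : ℂ) : gb b (z : OnePoint ℂ) = (z - b)⁻¹ := rfl
@[simp] theorem gb_infty (b : ℂ) : gb b OnePoint.infty = 0 := rfl

theorem gb_inj {b : ℂ} {ζ ξ : OnePoint ℂ} (hζ : ζ ≠ (b : OnePoint ℂ)) (hξ : ξ ≠ (b : OnePoint ℂ))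
    (h : gb b ζ = gb b ξ) : ζ = ξ := by
  induction ζ using OnePoint.rec with
  | infty =>
    induction ξ using OnePoint.rec with
    | infty => rfl
    | coe w =>
      exfalso
      rw [gb_infty, gb_coe] at h
      have h1 : w - b = 0 := inv_eq_zero.1 h.symm
      exact hξ (by rw [sub_eq_zero.1 h1])
  | coe z =>
    induction ξ using OnePoint.rec with
    | infty =>
      exfalso
      rw [gb_infty, gb_coe] at h
      have h1 : z - b = 0 := inv_eq_zero.1 h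
      exact hζ (by rw [sub_eq_zero.1 h1])
    | coe w =>
      rw [gb_coe, gb_coe] at h
      have := inv_injective h
      have h2 : z = w := by linear_combination this
      rw [h2]

theorem gb_bound {b : ℂ} {r : ℝ} (hr : 0 < r) {ζ : OnePoint ℂ}
    (hζ : ζ ∉ OnePoint.some '' Metric.closedBall b r) : ‖gb b ζ‖ ≤ r⁻¹ := by
  induction ζ using OnePoint.rec with
  | infty => simp [hr.le]
  | coe z =>
    rw [gb_coe, norm_inv]
    have h1 : r < ‖z - b‖ := by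
      by_contra hcon
      apply hζ
      refine ⟨z, ?_, rfl⟩
      rw [Metric.mem_closedBall, dist_eq_norm]
      exact not_lt.1 hcon
    exact inv_anti₀ hr h1.le

section
variable {R : Type*} [TopologicalSpace R] [ChartedSpace ℂ R]

theorem gb_mdiff {b : ℂ} {w : R → OnePoint ℂ} (hw : HolToSphere w) {p : R}
    (hp : w p ≠ (b : OnePoint ℂ)) : MDifferentiableAt 𝓘(ℂ) 𝓘(ℂ) (fun x => gb b (w x)) p := by
  by_cases h : w p = OnePoint.infty
  · have h0 : w p ≠ ((0 : ℂ) : OnePoint ℂ) := by rw [h]; simp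
    have h1 := (hw.2 p).2 h0
    have h2 : DifferentiableAt ℂ (fun t : ℂ => t / (1 - b * t)) (coordInv (w p)) := by
      rw [h, coordInv_infty]
      apply DifferentiableAt.div differentiableAt_id
      · fun_prop
      · simp
    have h3 : MDifferentiableAt 𝓘(ℂ) 𝓘(ℂ) ((fun t : ℂ => t / (1 - b * t)) ∘
        (fun x => coordInv (w x))) p := (h2.mdifferentiableAt).comp p h1
    refine h3.congr_of_eventuallyEq ?_
    have e1 : ∀ᶠ x in 𝓝 p, w x ≠ ((0 : ℂ) : OnePoint ℂ) := hw.1.continuousAt.eventually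
      (isOpen_compl_singleton.mem_nhds h0)
    have e2 : ∀ᶠ x in 𝓝 p, w x ≠ (b : OnePoint ℂ) := hw.1.continuousAt.eventually
      (isOpen_compl_singleton.mem_nhds hp)
    filter_upwards [e1, e2] with x hx1 hx2
    simp only [Function.comp]
    generalize w x = ζ at hx1 hx2
    induction ζ using OnePoint.rec with
    | infty => simp
    | coe z =>
      rw [gb_coe, coordInv_coe]
      have hz : z ≠ 0 := by intro hh; apply hx1; rw [hh]
      have hzb : z - b ≠ 0 := by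
        intro hh; apply hx2; rw [sub_eq_zero.1 hh]
      have hzb2 : 1 - b * z⁻¹ ≠ 0 := by
        intro hh
        apply hzb
        field_simp at hh
        linear_combination hh
      field_simp
  · have h1 := (hw.2 p).1 h
    have h2 : DifferentiableAt ℂ (fun t : ℂ => (t - b)⁻¹) (coord (w p)) := by
      apply DifferentiableAt.inv
      · fun_prop
      · intro hh
        apply hp
        generalize w p = ζ at h hh
        induction ζ using OnePoint.rec with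
        | infty => exact absurd rfl h
        | coe z =>
          rw [coord_coe] at hh
          rw [sub_eq_zero.1 hh]
    have h3 : MDifferentiableAt 𝓘(ℂ) 𝓘(ℂ) ((fun t : ℂ => (t - b)⁻¹) ∘
        (fun x => coord (w x))) p := (h2.mdifferentiableAt).comp p h1
    refine h3.congr_of_eventuallyEq ?_
    have e1 : ∀ᶠ x in 𝓝 p, w x ≠ OnePoint.infty := hw.1.continuousAt.eventually
      (isOpen_compl_singleton.mem_nhds h)
    filter_upwards [e1] with x hx1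
    simp only [Function.comp]
    generalize w x = ζ at hx1
    induction ζ using OnePoint.rec with
    | infty => exact absurd rfl hx1
    | coe z => rfl

end

/-- punctured analytic boundedness and accumulating zeros -/
theorem zero_near {D : ℂ → ℂ} {z₀ : ℂ} {ρ C : ℝ} (hρ : 0 < ρ)
    (han : ∀ z ∈ Metric.ball z₀ ρ, z ≠ z₀ → AnalyticAt ℂ D z)
    (hb : ∀ z ∈ Metric.ball z₀ ρ, z ≠ z₀ → ‖D z‖ ≤ C)
    (hz : ∃ᶠ z in 𝓝[≠] z₀, D z = 0) : ∀ᶠ z in 𝓝[≠] z₀, D z = 0 := by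
  have h1 := Complex.differentiableOn_update_limUnder_of_bddAbove (f := D) (c := z₀)
    (Metric.ball_mem_nhds z₀ hρ)
    (fun z hz => (han z hz.1 hz.2).differentiableAt.differentiableWithinAt)
    ⟨C, by rintro _ ⟨z, hz, rfl⟩; exact hb z hz.1 hz.2⟩
  have h2 := h1.analyticAt (Metric.ball_mem_nhds z₀ hρ)
  have h3 := h2.frequently_zero_iff_eventually_zero.1 (by
    refine (hz.and_eventually self_mem_nhdsWithin).mono ?_
    rintro z ⟨hz1, hz2⟩
    rw [Function.update_of_ne hz2]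
    exact hz1)
  filter_upwards [h3.filter_mono nhdsWithin_le_nhds, self_mem_nhdsWithin] with z hz1 hz2
  rwa [Function.update_of_ne hz2] at hz1

variable {R : Type*} [TopologicalSpace R] [ChartedSpace ℂ R] [IsManifold 𝓘(ℂ) 1 R]

theorem key [PreconnectedSpace R] [T2Space R] {τ₁ : R → R} {B₁ B₂ : Set (OnePoint ℂ)}
    {π₁ π₂ : R → OnePoint ℂ}
    (c₁ : IsDoubleCover π₁ B₁) (c₂ : IsDoubleCover π₂ B₂)
    (hτ : MDifferentiable 𝓘(ℂ) 𝓘(ℂ) τ₁) (hτ1 : τ₁ ≠ id) (hττ : ∀ p, τ₁ (τ₁ p) = p)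
    (hπ : ∀ p, π₁ (τ₁ p) = π₁ p) {q : OnePoint ℂ} (hq : q ∈ derivedSet B₁)
    (hiso : ¬ AccPt q (𝓟 (derivedSet B₁))) : ∃ p₁, ∀ᶠ x in 𝓝 p₁, π₂ (τ₁ x) = π₂ x := by
  classical
  -- a finite point `b` of `B₂`
  obtain ⟨b, hbB⟩ : ∃ b : ℂ, (b : OnePoint ℂ) ∈ B₂ := by
    obtain ⟨ζ, hζ, hζ2⟩ := c₂.infinite.exists_notMem_finite (finite_singleton OnePoint.infty)
    induction ζ using OnePoint.rec with
    | infty => exact absurd rfl hζ2
    | coe z => exact ⟨z, hζ⟩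
  have hb : (b : OnePoint ℂ) ∉ derivedSet B₂ := c₂.discrete _ hbB
  obtain ⟨r, hr, hrb⟩ : ∃ r > 0, ∀ z ∈ Metric.closedBall b r, (z : OnePoint ℂ) ∉ derivedSet B₂ := by
    have h1 : IsOpen {z : ℂ | (z : OnePoint ℂ) ∉ derivedSet B₂} :=
      (isClosed_derivedSet B₂).isOpen_compl.preimage OnePoint.continuous_coe
    obtain ⟨r, hr, h2⟩ := Metric.nhds_basis_closedBall.mem_iff.1 (h1.mem_nhds hb)
    exact ⟨r, hr, fun z hz => h2 hz⟩
  set K₀ : Set (OnePoint ℂ) := OnePoint.some '' Metric.closedBall b r with hK₀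
  have hK₀c : IsCompact K₀ := (isCompact_closedBall b r).image OnePoint.continuous_coe
  have hKc : IsCompact (π₂ ⁻¹' K₀) := c₂.proper K₀ hK₀c (by
    rintro _ ⟨z, hz, rfl⟩; exact hrb z hz)
  set L : Set (OnePoint ℂ) := π₁ '' (π₂ ⁻¹' K₀) with hL
  have hLc : IsClosed L := (hKc.image c₁.hol.1).isClosed
  have hqL : q ∉ L := by
    rintro ⟨x, -, rfl⟩
    exact c₁.avoids x hq
  obtain ⟨κ, lam, U, hκ, hU⟩ := exists_crd q
  set z₀ := κ q with hz₀
  have hlamz : lam z₀ = q := hκ.left_inv hU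
  have hlam_ne : ∀ z, z ≠ z₀ → lam z ≠ q := by
    intro z hz h
    apply hz
    rw [hz₀, ← h, hκ.right_inv]
  obtain ⟨ρ, hρ, hball⟩ : ∃ ρ > 0, ∀ z ∈ Metric.ball z₀ ρ, lam z ∉ L ∧
      (z ≠ z₀ → lam z ∉ derivedSet B₁) := by
    have h1 : ∀ᶠ ζ in 𝓝 q, ζ ∉ L ∧ (ζ ≠ q → ζ ∉ derivedSet B₁) := by
      have h2 : ∀ᶠ ζ in 𝓝 q, ζ ∉ L := hLc.isOpen_compl.mem_nhds hqL
      have h3 : ∀ᶠ ζ in 𝓝 q, ζ ≠ q → ζ ∉ derivedSet B₁ := by
        rw [accPt_iff_frequently, Filter.not_frequently] at hiso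
        filter_upwards [hiso] with ζ h4 h5 h6
        exact h4 ⟨h5, h6⟩
      exact h2.and h3
    have h4 : Tendsto lam (𝓝 z₀) (𝓝 q) := by
      have := hκ.continuous_lam.continuousAt (x := z₀)
      unfold ContinuousAt at this
      rwa [hlamz] at this
    obtain ⟨ρ, hρ, h5⟩ := Metric.eventually_nhds_iff_ball.1 (h4.eventually h1)
    exact ⟨ρ, hρ, fun z hz => ⟨(h5 z hz).1, fun h => (h5 z hz).2 (hlam_ne z h)⟩⟩
  -- the function `G`
  set v : R → ℂ := fun x => gb b (π₂ x) with hv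
  set G : R → ℂ := fun x => (v x - v (τ₁ x)) * (v x - v (τ₁ x)) with hG
  set D : ℂ → ℂ := fun z => if h : ∃ p, π₁ p = lam z then G h.choose else 0 with hD
  have hDG : ∀ p, π₁ p ∈ U → D (κ (π₁ p)) = G p := by
    intro p hp
    have hex : ∃ p', π₁ p' = lam (κ (π₁ p)) := ⟨p, (hκ.left_inv hp).symm⟩
    have h1 : D (κ (π₁ p)) = G hex.choose := by
      simp only [hD]
      rw [dif_pos hex]
    rw [h1]
    have h2 : π₁ hex.choose = π₁ p := by rw [hex.choose_spec, hκ.left_inv hp]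
    by_cases h3 : hex.choose = p
    · rw [h3]
    · have h4 : τ₁ p = hex.choose := c₁.swap hτ hτ1 hττ hπ h2.symm (fun h => h3 h.symm)
      rw [← h4]
      simp only [hG, hττ]
      ring
  -- points over the punctured ball
  have hpt : ∀ z ∈ Metric.ball z₀ ρ, z ≠ z₀ → ∃ p, π₁ p = lam z := fun z hz hz' =>
    c₁.surj ((hball z hz).2 hz')
  have hoff : ∀ x, π₁ x ∉ L → π₂ x ∉ K₀ := fun x hx hx2 => hx ⟨x, hx2, rfl⟩
  have hbK : (b : OnePoint ℂ) ∈ K₀ := ⟨b, Metric.mem_closedBall_self hr.le, rfl⟩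
  have hvm : ∀ x, π₁ x ∉ L → MDifferentiableAt 𝓘(ℂ) 𝓘(ℂ) v x := by
    intro x hx
    apply gb_mdiff c₂.hol
    intro h
    apply hoff x hx
    rw [h]; exact hbK
  have hGm : ∀ x, π₁ x ∉ L → MDifferentiableAt 𝓘(ℂ) 𝓘(ℂ) G x := by
    intro x hx
    have h1 := hvm x hx
    have h2 : MDifferentiableAt 𝓘(ℂ) 𝓘(ℂ) (fun x => v (τ₁ x)) x := by
      have h3 := hvm (τ₁ x) (by rw [hπ]; exact hx)
      exact h3.comp x (hτ x)
    have h4 := h1.sub h2
    exact h4.mul h4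
  have hGnear : ∀ p, π₁ p ∉ L → ∀ᶠ x in 𝓝 p, MDifferentiableAt 𝓘(ℂ) 𝓘(ℂ) G x := by
    intro p hp
    have : ∀ᶠ x in 𝓝 p, π₁ x ∉ L := c₁.hol.1.continuousAt.eventually (hLc.isOpen_compl.mem_nhds hp)
    filter_upwards [this] with x hx
    exact hGm x hx
  have hDan : ∀ z ∈ Metric.ball z₀ ρ, z ≠ z₀ → AnalyticAt ℂ D z := by
    intro z hz hz'
    obtain ⟨p, hp⟩ := hpt z hz hz'
    have hpU : π₁ p ∈ U := by rw [hp]; exact hκ.lam_mem z
    have hpL : π₁ p ∉ L := by rw [hp]; exact (hball z hz).1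
    have h1 := descent' (D := D) (hκ.mdiff_nhds c₁.hol hpU) (hGnear p hpL) (c₁.not_const hκ hpU) (by
      filter_upwards [c₁.hol.1.continuousAt.eventually (hκ.isOpen.mem_nhds hpU)] with x hx
      exact hDG x hx)
    have h2 : κ (π₁ p) = z := by rw [hp, hκ.right_inv]
    rwa [h2] at h1
  have hDb : ∀ z ∈ Metric.ball z₀ ρ, z ≠ z₀ → ‖D z‖ ≤ (r⁻¹ + r⁻¹) * (r⁻¹ + r⁻¹) := by
    intro z hz hz'
    obtain ⟨p, hp⟩ := hpt z hz hz'
    have hpU : π₁ p ∈ U := by rw [hp]; exact hκ.lam_mem z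
    have hpL : π₁ p ∉ L := by rw [hp]; exact (hball z hz).1
    have h2 : κ (π₁ p) = z := by rw [hp, hκ.right_inv]
    rw [← h2, hDG p hpU]
    simp only [hG, norm_mul]
    have e1 : ‖v p‖ ≤ r⁻¹ := gb_bound hr (hoff p hpL)
    have e2 : ‖v (τ₁ p)‖ ≤ r⁻¹ := gb_bound hr (hoff (τ₁ p) (by rw [hπ]; exact hpL))
    have e3 : ‖v p - v (τ₁ p)‖ ≤ r⁻¹ + r⁻¹ := (norm_sub_le _ _).trans (add_le_add e1 e2)
    exact mul_le_mul e3 e3 (norm_nonneg _) (by positivity)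
  have hDz : ∃ᶠ z in 𝓝[≠] z₀, D z = 0 := by
    have h1 : Tendsto κ (𝓝[≠] q) (𝓝[≠] z₀) := by
      apply tendsto_nhdsWithin_of_tendsto_nhds_of_eventually_within
      · exact (hκ.continuousAt hU).tendsto.mono_left nhdsWithin_le_nhds
      · have h2 : ∀ᶠ ζ in 𝓝 q, ζ ∈ U := hκ.isOpen.mem_nhds hU
        filter_upwards [self_mem_nhdsWithin, h2.filter_mono nhdsWithin_le_nhds] with ζ h3 h4 h5
        exact h3 (hκ.injOn h4 hU h5)
    have h2 : ∃ᶠ ζ in 𝓝[≠] q, ζ ∈ B₁ := by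
      have := accPt_iff_frequently_nhdsNE.1 (mem_derivedSet.1 hq)
      exact this
    have h3 : ∃ᶠ z in 𝓝[≠] z₀, lam z ∈ B₁ := by
      apply h1.frequently
      have h4 : ∀ᶠ ζ in 𝓝 q, ζ ∈ U := hκ.isOpen.mem_nhds hU
      refine (h2.and_eventually (h4.filter_mono nhdsWithin_le_nhds)).mono ?_
      rintro ζ ⟨h5, h6⟩
      rwa [hκ.left_inv h6]
    refine h3.mono ?_
    intro z hz
    obtain ⟨p, hp⟩ := c₁.branched _ hz
    have hp1 : π₁ p = lam z := by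
      have : p ∈ π₁ ⁻¹' {lam z} := by rw [hp]; rfl
      exact this
    have hp2 : τ₁ p = p := by
      have : τ₁ p ∈ π₁ ⁻¹' {lam z} := by
        show π₁ (τ₁ p) = lam z
        rw [hπ, hp1]
      rw [hp] at this
      exact this
    have hpU : π₁ p ∈ U := by rw [hp1]; exact hκ.lam_mem z
    have h7 : κ (π₁ p) = z := by rw [hp1, hκ.right_inv]
    rw [← h7, hDG p hpU]
    simp only [hG, hp2]
    ring
  have hfin := zero_near hρ hDan hDb hDz
  -- choose a point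
  rw [eventually_nhdsWithin_iff] at hfin
  have hfin2 := (hfin.and (Metric.ball_mem_nhds z₀ hρ)).eventually_nhds
  obtain ⟨z₁, hz₁, hz₁'⟩ := ((hfin2.filter_mono nhdsWithin_le_nhds).and
    (self_mem_nhdsWithin : ∀ᶠ z in 𝓝[≠] z₀, z ∈ ({z₀} : Set ℂ)ᶜ)).exists
  have hz₁b : z₁ ∈ Metric.ball z₀ ρ := hz₁.self_of_nhds.2
  obtain ⟨p₁, hp₁⟩ := hpt z₁ hz₁b hz₁'
  have hpU : π₁ p₁ ∈ U := by rw [hp₁]; exact hκ.lam_mem z₁
  have hpL : π₁ p₁ ∉ L := by rw [hp₁]; exact (hball z₁ hz₁b).1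
  have h2 : κ (π₁ p₁) = z₁ := by rw [hp₁, hκ.right_inv]
  refine ⟨p₁, ?_⟩
  have hc : Tendsto (fun x => κ (π₁ x)) (𝓝 p₁) (𝓝 z₁) := by
    have h8 : Tendsto (fun x => κ (π₁ x)) (𝓝 p₁) (𝓝 (κ (π₁ p₁))) :=
      (hκ.mdiff c₁.hol hpU).continuousAt
    rwa [h2] at h8
  have hne : ∀ᶠ z in 𝓝 z₁, z ≠ z₀ := isOpen_ne.mem_nhds hz₁'
  have hL' : ∀ᶠ x in 𝓝 p₁, π₁ x ∉ L :=
    c₁.hol.1.continuousAt.eventually (hLc.isOpen_compl.mem_nhds hpL)
  filter_upwards [hc.eventually hz₁, hc.eventually hne, hL',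
    c₁.hol.1.continuousAt.eventually (hκ.isOpen.mem_nhds hpU)] with x hx1 hx2 hx3 hx4
  have h5 : D (κ (π₁ x)) = 0 := hx1.1 hx2
  rw [hDG x hx4] at h5
  have h6 : v x = v (τ₁ x) := by
    have := mul_self_eq_zero.1 h5
    exact sub_eq_zero.1 this
  refine (gb_inj ?_ ?_ h6).symm
  · intro h
    apply hoff x hx3
    rw [h]; exact hbK
  · intro h
    apply hoff (τ₁ x) (by rw [hπ]; exact hx3)
    rw [h]; exact hbK

/-- uniqueness of the hyperelliptic involution, as soon as one limit set has an isolated point -/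
theorem unique [PreconnectedSpace R] [T2Space R] {τ₁ τ₂ : R → R} {B₁ B₂ : Set (OnePoint ℂ)}
    (h₁ : IsHyperellipticInvolution τ₁ B₁) (h₂ : IsHyperellipticInvolution τ₂ B₂)
    {q : OnePoint ℂ} (hq : q ∈ derivedSet B₁) (hiso : ¬ AccPt q (𝓟 (derivedSet B₁))) :
    τ₁ = τ₂ := by
  obtain ⟨hτ, hτ1, hττ, π₁, c₁, hπ⟩ := h₁
  obtain ⟨hσ, hσ1, hσσ, π₂, c₂, hπ₂⟩ := h₂
  obtain ⟨p₁, hp₁⟩ := key c₁ c₂ hτ hτ1 hττ hπ hq hiso
  have hcomp : HolToSphere (fun x => π₂ (τ₁ x)) := by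
    refine ⟨c₂.hol.1.comp hτ.continuous, fun p => ⟨fun h => ?_, fun h => ?_⟩⟩
    · exact ((c₂.hol.2 (τ₁ p)).1 h).comp p (hτ p)
    · exact ((c₂.hol.2 (τ₁ p)).2 h).comp p (hτ p)
  have hall := sphere_identity hcomp c₂.hol hp₁
  have hall' : ∀ x, π₂ (τ₁ x) = π₂ x := fun x => congrFun hall x
  obtain ⟨x₀, hx₀⟩ : ∃ x₀, τ₁ x₀ ≠ x₀ := by
    by_contra hcon
    apply hτ1
    funext x
    by_contra h
    exact hcon ⟨x, h⟩
  have hnear : ∀ᶠ x in 𝓝 x₀, τ₁ x ≠ x := by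
    have : IsOpen {x | τ₁ x ≠ x} := isOpen_ne_fun hτ.continuous continuous_id
    exact this.mem_nhds hx₀
  have : ∀ᶠ x in 𝓝 x₀, τ₁ x = τ₂ x := by
    filter_upwards [hnear] with x hx
    exact (c₂.swap hσ hσ1 hσσ hπ₂ (hall' x).symm (fun h => hx h.symm)).symm
  exact self_map_identity hτ hσ this

end Pool.Agent.Q192.HY
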